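import Pool.Agent.H91.LocConv

set_option autoImplicit false

open H91.LocConv in
theorem Pool.Agent.Results.MP_122452_an.PowerType.result (X : Type*) [NormedAddCommGroup X]
    [NormedSpace ℝ X] [CompleteSpace X] (hA : Admissible X) : PT2 X :=
  main X hA
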